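import Mathlib
import Pool.Agent.H.MP_a79c01_pr.E

namespace Pool.Agent.Results.MP_a79c01_pr.Learn

open MeasureTheory Filter Topology Pool.Agent.H.MP_a79c01_pr

theorem result (tie : ℕ → Finset ℕ → Bool → Bool) :
    ∃ N : ℕ → Finset ℕ, (∀ n, ∀ m ∈ N n, m < n) ∧ (∃ a, Bayes N tie a) ∧
      ∀ a, Bayes N tie a →
        (∀ n s t, MeasurableSet (info N a n s) ∧ 0 < law t (info N a n s)) ∧
        (∀ n, Measurable (a n)) ∧
        Tendsto (fun n => ((law true).real {s | a n s = true} +
          (law false).real {s | a n s = false}) / 2) atTop (𝓝 1) := by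
  obtain ⟨N, hv, h⟩ := main tie
  refine ⟨N, hv, ⟨_, act_bayes hv tie⟩, fun a ha => ?_⟩
  have r := ha.rat hv
  have d := fun n b => r.act_DS (Nat.lt_succ_self n) (· = b)
  refine ⟨fun n s t => ⟨(r.info_DS n s).meas, ?_⟩, fun n => measurable_to_bool (d n true).meas, ?_⟩
  · exact (ENNReal.toReal_pos_iff.1 ((r.info_DS n s).pos (info_self N a n s) t)).1
  · rw [Metric.tendsto_atTop]
    intro ε hε
    obtain ⟨j, hj⟩ := exists_pow_lt_of_lt_one hε (by norm_num : (4 / 5 : ℝ) < 1)
    obtain ⟨n0, hn⟩ := h a ha j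
    refine ⟨n0, fun n hn' => ?_⟩
    have h1 := pr_compl true (d n true)
    have h2 := pr_compl false (d n false)
    have e1 : {s | a n s = true}ᶜ = {s | a n s = false} := by ext s; simp
    have e2 : {s | a n s = false}ᶜ = {s | a n s = true} := by ext s; simp
    rw [e1] at h1
    rw [e2] at h2
    have h3 := hn n hn'
    have h4 := pr_nonneg true {s | a n s = false}
    have h5 := pr_nonneg false {s | a n s = true}
    change dist ((pr true {s | a n s = true} + pr false {s | a n s = false}) / 2) 1 < ε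
    rw [Real.dist_eq, abs_lt]
    constructor <;> linarith

end Pool.Agent.Results.MP_a79c01_pr.Learn
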